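import Mathlib

namespace Pool.Agent.Results.MP_55034c_pr.Sticky

open Finset

/-- Probability that the chain with initial law `π` and transition matrix `P` follows the
trajectory `ω 0, ..., ω s`. -/
def pathProb {K V : Type} [CommRing K] (π : V → K) (P : V → V → K) (s : ℕ)
    (ω : Fin (s + 1) → V) : K :=
  π (ω 0) * ∏ r : Fin s, P (ω r.castSucc) (ω r.succ)

/-- `ℙ(|⋃ᵢ Rᵢ(tᵢ)| ≥ y)` for `k` independent chains started from `π`. -/
def unionTail {K V : Type} [CommRing K] [Fintype V] [DecidableEq V] (π : V → K) (P : V → V → K)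
    (k : ℕ) (t : Fin k → ℕ) (y : ℕ) : K :=
  ∑ ω : (i : Fin k) → Fin (t i + 1) → V,
    if y ≤ (univ.biUnion fun i => univ.image (ω i)).card then ∏ i, pathProb π P (t i) (ω i) else 0

/-- `ℙ(|R(s)| ≥ y)` for one chain started from `π`. -/
def rangeTail {K V : Type} [CommRing K] [Fintype V] [DecidableEq V] (π : V → K) (P : V → V → K)
    (s y : ℕ) : K :=
  ∑ ω : Fin (s + 1) → V, if y ≤ (univ.image ω).card then pathProb π P s ω else 0

def Pq : Fin 5 → Fin 5 → ℚ :=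
  ![![199 / 200, 1 / 200, 0, 0, 0], ![1 / 2, 0, 1 / 2, 0, 0], ![0, 1 / 2, 0, 1 / 2, 0],
    ![0, 0, 1 / 2, 0, 1 / 2], ![0, 0, 0, 1, 0]]
def πq : Fin 5 → ℚ := ![200 / 207, 2 / 207, 2 / 207, 2 / 207, 1 / 207]

lemma cast_path {V : Type} (π : V → ℚ) (P : V → V → ℚ) (s : ℕ) (ω : Fin (s + 1) → V) :
    pathProb (fun x => (π x : ℝ)) (fun x y => (P x y : ℝ)) s ω = (pathProb π P s ω : ℚ) := by
  simp [pathProb]

def U : ℚ := ∑ a : Fin 5, ∑ b : Fin 5, ∑ c : Fin 5, ∑ d : Fin 5, ∑ e : Fin 5, ∑ f : Fin 5,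
  if 5 ≤ ({a, b, c, d, e, f} : Finset (Fin 5)).card then
    πq a * (Pq a b * Pq b c) * (πq d * (Pq d e * Pq e f)) else 0

def R : ℚ := ∑ a : Fin 5, ∑ b : Fin 5, ∑ c : Fin 5, ∑ d : Fin 5, ∑ e : Fin 5,
  if 5 ≤ ({a, b, c, d, e} : Finset (Fin 5)).card then
    πq a * (Pq a b * Pq b c * Pq c d * Pq d e) else 0

lemma UR : U < R := by decide +kernel

lemma sum_succ {n : ℕ} (g : (Fin (n + 1) → Fin 5) → ℚ) :
    ∑ ω, g ω = ∑ a, ∑ ω : Fin n → Fin 5, g (Fin.cons a ω) := by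
  rw [← (Fin.consEquiv fun _ => Fin 5).sum_comp, Fintype.sum_prod_type]
  rfl

lemma sum3 (g : (Fin 3 → Fin 5) → ℚ) : ∑ ω, g ω = ∑ a, ∑ b, ∑ c, g ![a, b, c] := by
  simp only [sum_succ, Fintype.sum_unique]
  refine sum_congr rfl fun a _ => sum_congr rfl fun b _ => sum_congr rfl fun c _ => ?_
  congr 1

lemma sum5 (g : (Fin 5 → Fin 5) → ℚ) :
    ∑ ω, g ω = ∑ a, ∑ b, ∑ c, ∑ d, ∑ e, g ![a, b, c, d, e] := by
  simp only [sum_succ, Fintype.sum_unique]
  refine sum_congr rfl fun a _ => sum_congr rfl fun b _ => sum_congr rfl fun c _ =>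
    sum_congr rfl fun d _ => sum_congr rfl fun e _ => ?_
  congr 1

lemma U_eq : unionTail πq Pq 2 (fun _ => 2) 5 = U := by
  unfold unionTail U
  rw [← (piFinTwoEquiv fun _ => Fin 3 → Fin 5).symm.sum_comp, Fintype.sum_prod_type, sum3]
  refine sum_congr rfl fun a _ => sum_congr rfl fun b _ => sum_congr rfl fun c _ => ?_
  rw [sum3]
  refine sum_congr rfl fun d _ => sum_congr rfl fun e _ => sum_congr rfl fun f _ => ?_
  congr 1
  · congr 2
    ext x
    simp [Fin.exists_fin_succ, eq_comm, or_assoc]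
  · simp [pathProb, Fin.prod_univ_succ]

lemma R_eq : rangeTail πq Pq 4 5 = R := by
  unfold rangeTail R
  rw [sum5]
  refine sum_congr rfl fun a _ => sum_congr rfl fun b _ => sum_congr rfl fun c _ =>
    sum_congr rfl fun d _ => sum_congr rfl fun e _ => ?_
  congr 1
  · congr 2
    ext x
    simp [Fin.exists_fin_succ, eq_comm]
  · simp [pathProb, Fin.prod_univ_succ, mul_assoc]

lemma prim : ∀ x y, 0 < ((Matrix.of Pq) ^ 8) x y := by decide +kernel

theorem result : ∃ (n : ℕ) (π : Fin n → ℝ) (P : Fin n → Fin n → ℝ) (t : Fin 2 → ℕ) (y : ℕ),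
    (∀ x z, 0 ≤ P x z) ∧ (∀ x, ∑ z, P x z = 1) ∧ (∀ x, 0 < π x) ∧ ∑ x, π x = 1 ∧
    (∀ x z, π x * P x z = π z * P z x) ∧ (∃ m, 0 < m ∧ ∀ x z, 0 < ((Matrix.of P) ^ m) x z) ∧
    (∀ i, 0 < t i) ∧ 0 < y ∧ unionTail π P 2 t y < rangeTail π P (∑ i, t i) y := by
  refine ⟨5, fun x => (πq x : ℝ), fun x z => (Pq x z : ℝ), fun _ => 2, 5, ?_, ?_, ?_, ?_, ?_,
    ⟨8, by norm_num, ?_⟩, by simp, by norm_num, ?_⟩
  · intro x z
    beta_reduce
    exact_mod_cast (by decide +kernel : ∀ x z, 0 ≤ Pq x z) x z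
  · intro x
    beta_reduce
    exact_mod_cast (by decide +kernel : ∀ x, ∑ z, Pq x z = 1) x
  · intro x
    beta_reduce
    exact_mod_cast (by decide +kernel : ∀ x, 0 < πq x) x
  · beta_reduce
    exact_mod_cast (by decide +kernel : ∑ x, πq x = 1)
  · intro x z
    beta_reduce
    exact_mod_cast (by decide +kernel : ∀ x z, πq x * Pq x z = πq z * Pq z x) x z
  · intro x z
    have e : (Matrix.of fun x z => (Pq x z : ℝ)) = (Rat.castHom ℝ).mapMatrix (Matrix.of Pq) := rfl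
    rw [e, ← map_pow]
    show (0 : ℝ) < ((((Matrix.of Pq) ^ 8) x z : ℚ) : ℝ)
    exact_mod_cast prim x z
  · have h := UR
    rw [← U_eq, ← R_eq] at h
    have e : ∑ i : Fin 2, (fun _ => 2) i = 4 := by simp
    rw [e]
    have h1 : unionTail (fun x => (πq x : ℝ)) (fun x z => (Pq x z : ℝ)) 2 (fun _ => 2) 5 =
        (unionTail πq Pq 2 (fun _ => 2) 5 : ℚ) := by
      simp only [unionTail, cast_path]
      push_cast
      refine sum_congr rfl fun ω _ => ?_
      split_ifs <;> simp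
    have h2 : rangeTail (fun x => (πq x : ℝ)) (fun x z => (Pq x z : ℝ)) 4 5 =
        (rangeTail πq Pq 4 5 : ℚ) := by
      simp only [rangeTail, cast_path]
      push_cast
      refine sum_congr rfl fun ω _ => ?_
      split_ifs <;> simp
    rw [h1, h2]
    exact_mod_cast h

end Pool.Agent.Results.MP_55034c_pr.Sticky
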